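import Pool.Agent.V7Lead.GH.Defs
import Pool.Agent.V7H50.GH.CB

set_option autoImplicit false

namespace Pool.Agent.V7Lead.GH

theorem t_CB : S_CB := Pool.Agent.V7H50.GH.cb

end Pool.Agent.V7Lead.GH
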