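import Pool.Agent.V7Lead.GH.Defs
import Pool.Agent.Q148.UM.UBD

set_option autoImplicit false

/-! Project GH (lead): the assembly, following `Pool.Agent.Q148.UM.t_UBD`. -/

namespace Pool.Agent.V7Lead.GH

open Filter Topology MeasureTheory Complex
open Pool.Agent.Q97.UM Pool.Agent.Q148.UM.D Pool.Agent.Q148.UM

noncomputable section

open Classical in
/-- the zeros with ordinates in `(T, 2T]` and distance at most `1/8` from the critical line -/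
def Zn (T : ℝ) : Finset ℂ := (H370.Zf riemannZeta T (2 * T)).filter (fun s => |s.re - 1 / 2| ≤ 1 / 8)

/-- the summation for fixed `T` -/
theorem core_sum {lam κ T δ A A₂ W CP K1 K2 K3 ε D : ℝ} {m' : ℕ} (hT : 16 ≤ T) (hL1 : 1 ≤ Real.log T)
    (hδ : 0 ≤ δ) (hA : 0 ≤ A) (hA₂ : 0 ≤ A₂) (hlam : 0 < lam) (hAA : lam / (1 - lam) * A - A₂ ≤ δ)
    (hCP : 1 ≤ CP) (hW : 0 ≤ W) (hK3 : 0 ≤ K3) (hK1 : 0 ≤ K1) (hK2 : 0 ≤ K2)
    (hP : ∀ (D : ℝ) (s : ℂ) (X n E : ℝ), 0 ≤ X → 1 ≤ n → 1 ≤ E → X ^ (2 * lam) ≤ CP * ∑ q ∈ Finset.range (JB D + 1),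
      (n ^ m' * E ^ (lam / (1 - lam)) * ‖Efc D κ (fun _ => (lam : ℂ)) (fun _ => (lam : ℂ)) q s * pwc D κ (fun _ => 1) (fun _ => 1) q s‖ ^ 2 +
        n⁻¹ * E⁻¹ * X ^ 2 * ‖Efc D κ (fun _ => (lam : ℂ) - 1) (fun _ => (lam : ℂ) - 1) q s * pwc D κ (fun _ => 1) (fun _ => 1) q s‖ ^ 2))
    (h1 : ∀ q : ℕ, q ≤ JB D → ∑ s ∈ H370.Zf riemannZeta T (2 * T), (mz s : ℝ) * (SS δ T s.im ^ m' *
      Real.exp (δ * (Real.log T * |s.re - 1 / 2|)) *
      ‖Efc D κ (fun _ => (lam : ℂ)) (fun _ => (lam : ℂ)) q s * pwc D κ (fun _ => 1) (fun _ => 1) q s‖ ^ 2) ≤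
        K1 * Real.exp (-(2 * (q : ℝ))) * (Real.log T * T * W))
    (h2 : ∀ q : ℕ, q ≤ JB D → ∑ s ∈ Zn T, (n2 T s.im)⁻¹ * Real.exp (-(A * (Real.log T * |s.re - 1 / 2|))) *
      (‖deriv riemannZeta s‖ ^ 2 * ‖Efc D κ (fun _ => (lam : ℂ) - 1) (fun _ => (lam : ℂ) - 1) q s *
        pwc D κ (fun _ => 1) (fun _ => 1) q s‖ ^ 2) ≤
        Real.log T ^ 2 * (Real.log T * T * W) * (K2 * Real.exp (-(2 * (q : ℝ))) + K3 * ε))
    (hε : ((JB D : ℝ) + 1) * ε ≤ 1) :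
    ∑ s ∈ Zn T, ‖deriv riemannZeta s‖ ^ (2 * lam) * Real.exp (-(A₂ * (Real.log T * |s.re - 1 / 2|))) ≤
      CP * (9 ^ m' * K1 * 2 + K2 * 2 + K3) * Real.log T ^ (2 * lam) * (Real.log T * T * W) := by
  classical
  have hL0 : 0 < Real.log T := by linarith
  set L := Real.log T with hL
  obtain ⟨G, hG⟩ : ∃ G : ℝ, G = L * T * W := ⟨_, rfl⟩
  have hG0 : 0 ≤ G := by rw [hG]; positivity
  rw [← hG] at h1 h2 ⊢
  set E1 : ℕ → ℂ → ℝ := fun q s => ‖Efc D κ (fun _ => (lam : ℂ)) (fun _ => (lam : ℂ)) q s *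
    pwc D κ (fun _ => 1) (fun _ => 1) q s‖ ^ 2 with hE1
  set E2 : ℕ → ℂ → ℝ := fun q s => ‖Efc D κ (fun _ => (lam : ℂ) - 1) (fun _ => (lam : ℂ) - 1) q s *
    pwc D κ (fun _ => 1) (fun _ => 1) q s‖ ^ 2 with hE2
  have hE10 : ∀ q s, 0 ≤ E1 q s := fun q s => by simp only [hE1]; positivity
  have hE20 : ∀ q s, 0 ≤ E2 q s := fun q s => by simp only [hE2]; positivity
  have hZn : ∀ s ∈ Zn T, s ∈ H370.Zf riemannZeta T (2 * T) := by
    intro s hs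
    unfold Zn at hs
    exact (Finset.mem_filter.1 hs).1
  -- pointwise
  have pt : ∀ s ∈ Zn T, ‖deriv riemannZeta s‖ ^ (2 * lam) * Real.exp (-(A₂ * (L * |s.re - 1 / 2|))) ≤
      L ^ (2 * lam) * (CP * ∑ q ∈ Finset.range (JB D + 1), (n2 T s.im ^ m' * Real.exp (δ * (L * |s.re - 1 / 2|)) * E1 q s +
        (n2 T s.im)⁻¹ * Real.exp (-(A * (L * |s.re - 1 / 2|))) * (‖deriv riemannZeta s‖ ^ 2 / L ^ 2) * E2 q s)) := by
    intro s hs
    have hn := n2_ge hT (hZn s hs)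
    obtain ⟨x, hx⟩ : ∃ x : ℝ, x = L * |s.re - 1 / 2| := ⟨_, rfl⟩
    have hx0 : 0 ≤ x := by rw [hx]; positivity
    rw [← hx]
    have hE : 1 ≤ Real.exp (A * x) := Real.one_le_exp (by positivity)
    have h3 := hP D s (‖deriv riemannZeta s‖ / L) (n2 T s.im) (Real.exp (A * x)) (by positivity) hn hE
    have e1 : ‖deriv riemannZeta s‖ ^ (2 * lam) = L ^ (2 * lam) * (‖deriv riemannZeta s‖ / L) ^ (2 * lam) := by
      rw [← Real.mul_rpow hL0.le (by positivity)]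
      congr 1
      field_simp
    rw [e1, mul_assoc]
    refine mul_le_mul_of_nonneg_left ?_ (Real.rpow_nonneg hL0.le _)
    refine (mul_le_mul_of_nonneg_right h3 (Real.exp_pos _).le).trans ?_
    rw [mul_assoc, Finset.sum_mul]
    refine mul_le_mul_of_nonneg_left ?_ (by linarith)
    refine Finset.sum_le_sum fun q _ => ?_
    have e2 : Real.exp (A * x) ^ (lam / (1 - lam)) * Real.exp (-(A₂ * x)) ≤ Real.exp (δ * x) := by
      rw [← Real.exp_mul, ← Real.exp_add]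
      apply Real.exp_le_exp.2
      have := mul_le_mul_of_nonneg_right hAA hx0
      linarith
    have e3 : (Real.exp (A * x))⁻¹ * Real.exp (-(A₂ * x)) ≤ Real.exp (-(A * x)) := by
      rw [← Real.exp_neg]
      have : Real.exp (-(A₂ * x)) ≤ 1 := by
        rw [Real.exp_le_one_iff]
        have : 0 ≤ A₂ * x := by positivity
        linarith
      calc Real.exp (-(A * x)) * Real.exp (-(A₂ * x)) ≤ Real.exp (-(A * x)) * 1 :=
            mul_le_mul_of_nonneg_left this (Real.exp_pos _).le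
        _ = _ := mul_one _
    rw [add_mul]
    have hn0 : 0 ≤ n2 T s.im := by linarith
    refine add_le_add ?_ ?_
    · calc n2 T s.im ^ m' * Real.exp (A * x) ^ (lam / (1 - lam)) * E1 q s * Real.exp (-(A₂ * x)) =
          n2 T s.im ^ m' * (Real.exp (A * x) ^ (lam / (1 - lam)) * Real.exp (-(A₂ * x))) * E1 q s := by ring
        _ ≤ n2 T s.im ^ m' * Real.exp (δ * x) * E1 q s := by
          have := hE10 q s
          gcongr
    · calc (n2 T s.im)⁻¹ * (Real.exp (A * x))⁻¹ * (‖deriv riemannZeta s‖ / L) ^ 2 * E2 q s * Real.exp (-(A₂ * x)) =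
          (n2 T s.im)⁻¹ * ((Real.exp (A * x))⁻¹ * Real.exp (-(A₂ * x))) * (‖deriv riemannZeta s‖ ^ 2 / L ^ 2) * E2 q s := by
            rw [div_pow]; ring
        _ ≤ (n2 T s.im)⁻¹ * Real.exp (-(A * x)) * (‖deriv riemannZeta s‖ ^ 2 / L ^ 2) * E2 q s := by
          have := hE20 q s
          gcongr
  refine (Finset.sum_le_sum pt).trans ?_
  rw [← Finset.mul_sum, ← Finset.mul_sum, Finset.sum_comm]
  have hq : ∀ q ∈ Finset.range (JB D + 1), ∑ s ∈ Zn T, (n2 T s.im ^ m' * Real.exp (δ * (L * |s.re - 1 / 2|)) * E1 q s +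
        (n2 T s.im)⁻¹ * Real.exp (-(A * (L * |s.re - 1 / 2|))) * (‖deriv riemannZeta s‖ ^ 2 / L ^ 2) * E2 q s) ≤
      (9 ^ m' * K1 * Real.exp (-(2 * (q : ℝ))) + (K2 * Real.exp (-(2 * (q : ℝ))) + K3 * ε)) * G := by
    intro q hq
    have hqJ : q ≤ JB D := by
      have := Finset.mem_range.1 hq
      omega
    rw [Finset.sum_add_distrib, add_mul]
    refine add_le_add ?_ ?_
    · have h3 : ∑ s ∈ Zn T, n2 T s.im ^ m' * Real.exp (δ * (L * |s.re - 1 / 2|)) * E1 q s ≤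
          9 ^ m' * ∑ s ∈ H370.Zf riemannZeta T (2 * T), (mz s : ℝ) * (SS δ T s.im ^ m' *
            Real.exp (δ * (L * |s.re - 1 / 2|)) * E1 q s) := by
        rw [Finset.mul_sum]
        have h4 : ∀ s ∈ H370.Zf riemannZeta T (2 * T), (1 : ℝ) ≤ mz s := by
          intro s hs
          rw [H370.mem_Zf H370.good_zeta (by linarith)] at hs
          have := H370.Loc.mult_pos' H370.good_zeta (show 0 < s.im by linarith [hs.2.2.1]) hs.2.2.2.2
          exact_mod_cast this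
        have hSS : ∀ t, 0 ≤ SS δ T t := fun t => by
          unfold SS
          exact Finset.sum_nonneg fun s _ => by positivity
        refine le_trans ?_ (Finset.sum_le_sum_of_subset_of_nonneg (fun s hs => hZn s hs) fun s hs _ => ?_)
        · refine Finset.sum_le_sum fun s hs => ?_
          have h5 := n2_ge hT (hZn s hs)
          have h6 := n2_le (T := T) (t := s.im) (by linarith) hδ
          have h7 : n2 T s.im ^ m' ≤ (9 * SS δ T s.im) ^ m' := pow_le_pow_left₀ (by linarith) h6 m'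
          rw [mul_pow] at h7
          have h8 := h4 s (hZn s hs)
          have h9 : 0 ≤ SS δ T s.im ^ m' * Real.exp (δ * (L * |s.re - 1 / 2|)) * E1 q s :=
            mul_nonneg (mul_nonneg (pow_nonneg (hSS _) _) (Real.exp_pos _).le) (hE10 q s)
          calc n2 T s.im ^ m' * Real.exp (δ * (L * |s.re - 1 / 2|)) * E1 q s ≤
                9 ^ m' * SS δ T s.im ^ m' * Real.exp (δ * (L * |s.re - 1 / 2|)) * E1 q s := by
                have := hE10 q s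
                gcongr
            _ = 9 ^ m' * (1 * (SS δ T s.im ^ m' * Real.exp (δ * (L * |s.re - 1 / 2|)) * E1 q s)) := by ring
            _ ≤ 9 ^ m' * ((mz s : ℝ) * (SS δ T s.im ^ m' * Real.exp (δ * (L * |s.re - 1 / 2|)) * E1 q s)) :=
              mul_le_mul_of_nonneg_left (mul_le_mul_of_nonneg_right h8 h9) (by positivity)
        · exact mul_nonneg (by positivity) (mul_nonneg (Nat.cast_nonneg _)
            (mul_nonneg (mul_nonneg (pow_nonneg (hSS _) _) (Real.exp_pos _).le) (hE10 q s)))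
      have h10 := mul_le_mul_of_nonneg_left (h1 q hqJ) (by positivity : (0 : ℝ) ≤ 9 ^ m')
      refine h3.trans (h10.trans (le_of_eq ?_))
      ring
    · have h3 : ∑ s ∈ Zn T, (n2 T s.im)⁻¹ * Real.exp (-(A * (L * |s.re - 1 / 2|))) * (‖deriv riemannZeta s‖ ^ 2 / L ^ 2) * E2 q s =
          1 / L ^ 2 * ∑ s ∈ Zn T, (n2 T s.im)⁻¹ * Real.exp (-(A * (L * |s.re - 1 / 2|))) *
            (‖deriv riemannZeta s‖ ^ 2 * E2 q s) := by
        rw [Finset.mul_sum]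
        exact Finset.sum_congr rfl fun s _ => by ring
      rw [h3]
      refine (mul_le_mul_of_nonneg_left (h2 q hqJ) (by positivity)).trans (le_of_eq ?_)
      field_simp
  have hsum := Finset.sum_le_sum hq
  rw [← Finset.sum_mul, Finset.sum_add_distrib, Finset.sum_add_distrib, ← Finset.mul_sum, ← Finset.mul_sum, Finset.sum_const,
    Finset.card_range, nsmul_eq_mul] at hsum
  have hg := geo_sum (JB D + 1)
  have h5 : 9 ^ m' * K1 * ∑ q ∈ Finset.range (JB D + 1), Real.exp (-(2 * (q : ℝ))) ≤ 9 ^ m' * K1 * 2 :=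
    mul_le_mul_of_nonneg_left hg (by positivity)
  have h6 : K2 * ∑ q ∈ Finset.range (JB D + 1), Real.exp (-(2 * (q : ℝ))) ≤ K2 * 2 := mul_le_mul_of_nonneg_left hg hK2
  have h7 : ((JB D + 1 : ℕ) : ℝ) * (K3 * ε) ≤ K3 := by
    push_cast
    calc ((JB D : ℝ) + 1) * (K3 * ε) = K3 * (((JB D : ℝ) + 1) * ε) := by ring
      _ ≤ K3 * 1 := mul_le_mul_of_nonneg_left hε hK3
      _ = K3 := mul_one _
  have h8 : ∑ q ∈ Finset.range (JB D + 1), ∑ s ∈ Zn T, (n2 T s.im ^ m' * Real.exp (δ * (L * |s.re - 1 / 2|)) * E1 q s +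
        (n2 T s.im)⁻¹ * Real.exp (-(A * (L * |s.re - 1 / 2|))) * (‖deriv riemannZeta s‖ ^ 2 / L ^ 2) * E2 q s) ≤
        (9 ^ m' * K1 * 2 + K2 * 2 + K3) * G := by
    refine hsum.trans (mul_le_mul_of_nonneg_right ?_ hG0)
    linarith
  calc L ^ (2 * lam) * (CP * ∑ q ∈ Finset.range (JB D + 1), ∑ s ∈ Zn T, (n2 T s.im ^ m' *
        Real.exp (δ * (L * |s.re - 1 / 2|)) * E1 q s +
        (n2 T s.im)⁻¹ * Real.exp (-(A * (L * |s.re - 1 / 2|))) * (‖deriv riemannZeta s‖ ^ 2 / L ^ 2) * E2 q s)) ≤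
        L ^ (2 * lam) * (CP * ((9 ^ m' * K1 * 2 + K2 * 2 + K3) * G)) := by
        have := Real.rpow_nonneg hL0.le (2 * lam)
        gcongr
    _ = CP * (9 ^ m' * K1 * 2 + K2 * 2 + K3) * L ^ (2 * lam) * G := by ring

/-- the sequence `1, 0, 0, …` -/
def b1 (n : ℕ) : ℂ := if n = 1 then 1 else 0

theorem dp_b1 (t : ℝ) : dp 1 b1 t = 1 := by
  unfold dp b1
  simp

theorem b1_supp (m : ℕ) (h : b1 m ≠ 0) : 1 ≤ m ∧ m ≤ 1 := by
  unfold b1 at h
  by_cases hm : m = 1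
  · omega
  · simp [hm] at h

/-- the upper bound over the zeros at distance at most `1/8` from the line, with a weight -/
theorem t_core (hCB : S_CB) (hD1 : S_D1) (hD2 : S_D2) (hPTC : S_PTC) (hCOFC : S_COFC) (hP2 : S_PT2) (hTOR : S_TOR)
    (hCOF : S_COF) (hTSC : S_TSC) (hBLZ : S_BLZ) (hSTM : S_STM) (hDPM : S_DPM) (hMVL : S_MVL)
    (hTail : ∃ θ c C : ℝ, 0 < θ ∧ θ ≤ 1 / 4 ∧ 0 < c ∧ 0 ≤ C ∧ TailB θ c C) :
    ∃ A : ℝ, 0 ≤ A ∧ ∀ m' : ℕ, ∃ δ : ℝ, 0 < δ ∧ ∀ lam : ℝ, 0 < lam → lam < 1 → lam / (1 - lam) ≤ m' →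
      ∀ A₂ : ℝ, 0 ≤ A₂ → lam / (1 - lam) * A - A₂ ≤ δ → ∃ κ₀ : ℝ, 4 ≤ κ₀ ∧ ∀ κ : ℝ, κ₀ ≤ κ → ∃ δ₀ : ℝ, 0 < δ₀ ∧
        ∀ d : ℝ, 0 < d → d ≤ δ₀ → ∃ C : ℝ, 0 ≤ C ∧ ∀ᶠ T : ℝ in atTop,
          ∑ s ∈ Zn T, ‖deriv riemannZeta s‖ ^ (2 * lam) * Real.exp (-(A₂ * (Real.log T * |s.re - 1 / 2|))) ≤
            C * T * Real.log T ^ (1 + 2 * lam) * N2 (M9 (d * Real.log T) κ)
              (ebk (d * Real.log T) κ (fun _ => (lam : ℂ)) (fun _ => (lam : ℂ)) 0 (JB (d * Real.log T))) := by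
  classical
  obtain ⟨A, CB, hA, hCB0, hD2⟩ := hD2 hCB hBLZ
  obtain ⟨θB, cB, CB', hθB, hθB4, hcB, hCB', hTail⟩ := hTail
  refine ⟨A, hA, fun m' => ?_⟩
  obtain ⟨δ, hδ⟩ : ∃ δ : ℝ, δ = min 1 (cB / (16 * (m' + 2))) := ⟨_, rfl⟩
  have hδ0 : 0 < δ := by rw [hδ]; positivity
  have hδ1 : δ ≤ 1 := by rw [hδ]; exact min_le_left _ _
  have hδ2 : δ ≤ cB / (16 * (m' + 2)) := by rw [hδ]; exact min_le_right _ _
  refine ⟨δ, hδ0, fun lam hl0 hl1 hm' A₂ hA₂ hAA => ?_⟩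
  obtain ⟨C₁, hC₁, hS⟩ := hSTM θB cB CB' hθB hθB4 hcB hCB' hTail (m' + 1) δ hδ0 (by
    rw [le_div_iff₀ (by positivity)] at hδ2
    push_cast
    linarith)
  obtain ⟨θ', C₂, hθ', hθ'1, hC₂, hD⟩ := hD1 hCB hDPM hMVL (θB / 2) δ m' C₁ (by positivity) (by linarith) hδ0 hδ1 hC₁ hS
  obtain ⟨κ₁, hκ₁, hTOR⟩ := hTOR 1
  refine ⟨κ₁, hκ₁, fun κ hκ => ?_⟩
  have hκ4 : 4 ≤ κ := hκ₁.trans hκ
  obtain ⟨CT, hCT, hTOR⟩ := hTOR κ hκ
  obtain ⟨CP, hCP, hP⟩ := hPTC hP2 lam κ m' hl0 hl1 hκ4 hm'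
  obtain ⟨θ₀, hθ₀, hθ₀8, hTSC⟩ := hTSC
  obtain ⟨θm, hθm⟩ : ∃ θm : ℝ, θm = min (min θ₀ θ') (1 / 16) := ⟨_, rfl⟩
  have hθm0 : 0 < θm := by rw [hθm]; positivity
  have hθm1 : θm ≤ θ₀ := by rw [hθm]; exact (min_le_left _ _).trans (min_le_left _ _)
  have hθm2 : θm ≤ θ' := by rw [hθm]; exact (min_le_left _ _).trans (min_le_right _ _)
  have hθm3 : θm ≤ 1 / 16 := by rw [hθm]; exact min_le_right _ _
  refine ⟨θm / (26 * κ + 5), by positivity, fun d hd0 hd1 => ?_⟩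
  have hd2 : (26 * κ + 5) * d ≤ θm := by
    rw [le_div_iff₀ (by positivity)] at hd1
    linarith
  have hd3 : d ≤ 1 := by nlinarith
  obtain ⟨CS, hCS, hTS⟩ := hTSC d hd0 hd3
  refine ⟨CP * (9 ^ m' * (2 * C₂ * CT) * 2 + (CB * CS * CT) * 2 + (CB * CS + CB)) * 2, by positivity, ?_⟩
  have hgrow := ev_grow (C := CT) (δ := d) (θ := θ₀ / 2) hd0 (by positivity)
  filter_upwards [hD, hD2, hTS, hgrow, eventually_ge_atTop (16 : ℝ), Real.tendsto_log_atTop.eventually_ge_atTop 1,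
    Real.tendsto_log_atTop.eventually_ge_atTop (1 / d)] with T hD hD2 hTS hgrow hT hL1 hLd
  have hT0 : 0 < T := by linarith
  have hT1 : 1 ≤ T := by linarith
  have hL0 : 0 < Real.log T := by linarith
  have hDexp : Real.exp (d * Real.log T) = T ^ d := by
    rw [Real.rpow_def_of_pos hT0, mul_comm]
  obtain ⟨D, hDd⟩ : ∃ D : ℝ, D = d * Real.log T := ⟨_, rfl⟩
  rw [← hDd] at hgrow hDexp ⊢
  have hD1 : 1 ≤ D := by
    rw [hDd]
    rw [div_le_iff₀ hd0] at hLd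
    linarith
  -- the polynomial and `W`
  set e := ebk D κ (fun _ => (lam : ℂ)) (fun _ => (lam : ℂ)) 0 (JB D) with he
  obtain ⟨W, hW⟩ : ∃ W : ℝ, W = 2 * N2 (M9 D κ) e := ⟨_, rfl⟩
  have hW0 : 0 ≤ W := by rw [hW]; unfold N2; positivity
  have hκ1 : 1 ≤ κ := by linarith
  obtain ⟨-, he2, -⟩ := hCOF κ D hκ1 hD1 (fun _ => (lam : ℂ)) (fun _ => (lam : ℂ)) (fun _ => 1) (fun _ => 1) 0 0
  rw [Nat.sub_zero, ← he] at he2
  have hWMB : MB (fun t => ‖Ef D κ (lc (fun _ : Fin 1 => lam) (fun _ _ => (1 : ℂ))) (lc (fun _ : Fin 1 => lam) (fun _ _ => (1 : ℂ))) 0 t *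
      dp 1 b1 t‖ ^ 2) W := by
    have h1 := MB_of hMVL (M9 D κ) e
    rw [hW]
    convert h1 using 4 with t
    rw [lc_one, dp_b1, mul_one, he2]
  have hTORq := hTOR D hD1 (fun _ => lam) (fun _ _ => 1) (fun _ _ => 1) (fam_one hl0.le hl1.le) 1 b1 le_rfl
    (by rw [Nat.cast_one, Real.log_one]; linarith) b1_supp W hWMB 0 0
  have hTORq' : ∀ q : ℕ, q ≤ JB D →
      MB (fun t => ‖cexp (∑ l ∈ Finset.range (JB D), zf D (fun _ => 1) (fun _ => 1) l t)‖ ^ 2 *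
        ‖Ef D κ (fun _ => (lam : ℂ) - 1) (fun _ => (lam : ℂ) - 1) q t * pw D κ (fun _ => 1) (fun _ => 1) q t‖ ^ 2)
        (CT * Real.exp (-(2 * (q : ℝ))) * W) ∧
      MB (fun t => ‖Ef D κ (fun _ => (lam : ℂ)) (fun _ => (lam : ℂ)) q t * pw D κ (fun _ => 1) (fun _ => 1) q t‖ ^ 2)
        (CT * Real.exp (-(2 * (q : ℝ))) * W) ∧
      MB (fun t => ‖Ef D κ (fun _ => (lam : ℂ) - 1) (fun _ => (lam : ℂ) - 1) q t * pw D κ (fun _ => 1) (fun _ => 1) q t‖ ^ 2)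
        (Real.exp (CT * Real.sqrt D) * W) := by
    intro q hq
    have h1 := hTORq q hq
    rw [lc_one] at h1
    simp only [dp_b1, mul_one] at h1
    exact h1
  have hlen : ∀ M : ℕ, 1 ≤ M → Real.log M ≤ (26 * κ + 4) * D → (M : ℝ) ≤ T ^ θm := by
    intro M hM hMl
    have h1 : Real.log M ≤ θm * Real.log T := by
      have h2 : (26 * κ + 4) * D ≤ (26 * κ + 5) * d * Real.log T := by
        rw [hDd]
        have : 0 ≤ d * Real.log T := by positivity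
        nlinarith
      have h4 : (26 * κ + 5) * d * Real.log T ≤ θm * Real.log T := mul_le_mul_of_nonneg_right hd2 hL0.le
      linarith
    have hM1 : (0 : ℝ) < M := by exact_mod_cast hM
    rw [Real.rpow_def_of_pos hT0, ← Real.exp_log hM1]
    apply Real.exp_le_exp.2
    linarith
  have hmono : ∀ {x y : ℝ}, x ≤ y → T ^ x ≤ T ^ y := fun h => Real.rpow_le_rpow_of_exponent_le hT1 h
  -- the first part
  have part1 : ∀ q : ℕ, q ≤ JB D → ∑ s ∈ H370.Zf riemannZeta T (2 * T), (mz s : ℝ) * (SS δ T s.im ^ m' *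
      Real.exp (δ * (Real.log T * |s.re - 1 / 2|)) *
      ‖Efc D κ (fun _ => (lam : ℂ)) (fun _ => (lam : ℂ)) q s * pwc D κ (fun _ => 1) (fun _ => 1) q s‖ ^ 2) ≤
        (2 * C₂ * CT) * Real.exp (-(2 * (q : ℝ))) * (Real.log T * T * W) := by
    intro q hq
    obtain ⟨M, c, hM1, hMl, hcs, hdp, hdq⟩ := hCOFC hCOF κ D hκ1 hD1 (fun _ => (lam : ℂ)) (fun _ => (lam : ℂ))
      (fun _ => 1) (fun _ => 1) q q
    have h2 := (hTORq' q hq).2.1
    simp only [← hdp] at h2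
    simp only [← hdq]
    have h3 := N2_of_MB hMVL h2
    have h4 := hD M c ((hlen M hM1 hMl).trans (hmono hθm2))
    refine h4.trans ?_
    calc C₂ * Real.log T * (T * N2 M c) ≤ C₂ * Real.log T * (T * (2 * (CT * Real.exp (-(2 * (q : ℝ))) * W))) := by gcongr
      _ = _ := by ring
  -- the second part
  have part2 : ∀ q : ℕ, q ≤ JB D → ∑ s ∈ Zn T, (n2 T s.im)⁻¹ * Real.exp (-(A * (Real.log T * |s.re - 1 / 2|))) *
      (‖deriv riemannZeta s‖ ^ 2 * ‖Efc D κ (fun _ => (lam : ℂ) - 1) (fun _ => (lam : ℂ) - 1) q s *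
        pwc D κ (fun _ => 1) (fun _ => 1) q s‖ ^ 2) ≤
        Real.log T ^ 2 * (Real.log T * T * W) * ((CB * CS * CT) * Real.exp (-(2 * (q : ℝ))) +
          (CB * CS + CB) * (T ^ (-θ₀) * (2 * Real.exp (CT * Real.sqrt D)))) := by
    intro q hq
    obtain ⟨M, c, hM1, hMl, hcs, hdp, hdq⟩ := hCOFC hCOF κ D hκ1 hD1 (fun _ => (lam : ℂ) - 1) (fun _ => (lam : ℂ) - 1)
      (fun _ => 1) (fun _ => 1) q q
    obtain ⟨h2, -, h3⟩ := hTORq' q hq
    simp only [← hdp] at h2 h3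
    simp only [← hdq]
    have h4 := N2_of_MB hMVL h3
    have hMm := hlen M hM1 hMl
    have h5 := hTS M c (hMm.trans (hmono hθm1)) (fun n hn => by
      rw [← hDexp]
      exact hcs n hn) (CT * Real.exp (-(2 * (q : ℝ))) * W) (by rw [← hDd]; exact h2)
    have h6 := hD2 M c (hMm.trans (hmono hθm3)) (fun n hn => ⟨(hcs n hn).1, (hcs n hn).2.1⟩)
    refine (le_of_eq ?_).trans (h6.trans ?_)
    · unfold Zn
      rfl
    have hN20 : 0 ≤ N2 M c := by unfold N2; positivity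
    have hTθ : 1 ≤ T * T ^ (-θ₀) := by
      have : T * T ^ (-θ₀) = T ^ (1 - θ₀) := by
        nth_rewrite 1 [← Real.rpow_one T]
        rw [← Real.rpow_add hT0]
        congr 1
      rw [this]
      exact Real.one_le_rpow hT1 (by linarith)
    have hX : N2 M c ≤ (T * T ^ (-θ₀)) * (2 * (Real.exp (CT * Real.sqrt D) * W)) := by
      calc N2 M c ≤ 2 * (Real.exp (CT * Real.sqrt D) * W) := h4
        _ = 1 * (2 * (Real.exp (CT * Real.sqrt D) * W)) := (one_mul _).symm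
        _ ≤ _ := mul_le_mul_of_nonneg_right hTθ (by positivity)
    have hTθ0 : 0 ≤ T ^ (-θ₀) := Real.rpow_nonneg hT0.le _
    have h7 : (∫ t in (T / 2)..(3 * T), ‖zt t‖ ^ 2 * ‖dp M c t‖ ^ 2) + N2 M c ≤
        CS * T * (CT * Real.exp (-(2 * (q : ℝ))) * W + T ^ (-θ₀) * (2 * (Real.exp (CT * Real.sqrt D) * W))) +
          (T * T ^ (-θ₀)) * (2 * (Real.exp (CT * Real.sqrt D) * W)) := by
      refine add_le_add (h5.trans ?_) hX
      gcongr
    calc CB * Real.log T ^ 3 * ((∫ t in (T / 2)..(3 * T), ‖zt t‖ ^ 2 * ‖dp M c t‖ ^ 2) + N2 M c) ≤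
          CB * Real.log T ^ 3 * (CS * T * (CT * Real.exp (-(2 * (q : ℝ))) * W + T ^ (-θ₀) * (2 * (Real.exp (CT * Real.sqrt D) * W))) +
          (T * T ^ (-θ₀)) * (2 * (Real.exp (CT * Real.sqrt D) * W))) := by gcongr
      _ = _ := by ring
  have hε : ((JB D : ℝ) + 1) * (T ^ (-θ₀) * (2 * Real.exp (CT * Real.sqrt D))) ≤ 1 := by
    have h1 : T ^ (-θ₀) * T ^ (θ₀ / 2) ≤ 1 := by
      rw [← Real.rpow_add hT0]
      exact Real.rpow_le_one_of_one_le_of_nonpos hT1 (by linarith)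
    calc ((JB D : ℝ) + 1) * (T ^ (-θ₀) * (2 * Real.exp (CT * Real.sqrt D))) =
        T ^ (-θ₀) * (2 * Real.exp (CT * Real.sqrt D) * ((JB D : ℝ) + 1)) := by ring
      _ ≤ T ^ (-θ₀) * T ^ (θ₀ / 2) := mul_le_mul_of_nonneg_left hgrow (Real.rpow_nonneg hT0.le _)
      _ ≤ 1 := h1
  have hfin := core_sum (lam := lam) (κ := κ) (T := T) (δ := δ) (A := A) (A₂ := A₂) (W := W) (D := D) (m' := m')
    hT hL1 hδ0.le hA hA₂ hl0 hAA hCP hW0 (by positivity : 0 ≤ CB * CS + CB) (by positivity) (by positivity) hP part1 part2 hε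
  refine hfin.trans (le_of_eq ?_)
  rw [hW, Real.rpow_add hL0, Real.rpow_one]
  ring

end

end Pool.Agent.V7Lead.GH
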