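import Pool.Agent.Q97.UM.Stm15

set_option autoImplicit false

/-!
Project GH (lead), MP_69b2e4_nt: the order of `∑ |ζ'(ρ)|^{2λ}` over ALL nontrivial zeros for small `λ > 0`, unconditionally.
Statements are `def S_xxx : Prop` with proofs in the comments; `J_xxx` is the statement of a job. `L = log T`, `a = Re ρ - 1/2`.
Method: the start project UM (Q97/UM) proves the upper bound for the zeros ON the line, `0 < λ < 1`. Here the Dirichlet polynomials are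
evaluated at the zero `ρ` itself (off the line); band limited functions grow at most like `e^{B L |a|}` off the line, and the zeros
off the line are rare (`S_STM`: exponential moments of `L |a|`).
-/

namespace Pool.Agent.V7Lead.GH

open Filter Topology MeasureTheory Complex
open Pool.Agent.Q97.UM

noncomputable section

/-- an exponential sum at a complex point -/
def ex {ι : Type} (S : Finset ι) (a : ι → ℂ) (fr : ι → ℝ) (z : ℂ) : ℂ := ∑ i ∈ S, a i * cexp (-(I * (fr i * z)))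

/-- its derivative -/
def ex' {ι : Type} (S : Finset ι) (a : ι → ℂ) (fr : ι → ℝ) (z : ℂ) : ℂ :=
  ∑ i ∈ S, a i * (-(I * fr i)) * cexp (-(I * (fr i * z)))

/-- CB: band limited functions at complex points. Job `J_CB` (Mathlib only). PROOF. `om p x = (1+|x|)^{-p}`. Kernels: as
`Pool.Agent.Q210.UM8.exists_kernel` (file Q210/UM8/BlsKer.lean), but with decay exponent `p` and for both multipliers `1` and `-iξ`:
`k₀, k₁` with `|k_j| ≤ C om p`, `∫ k₀(x) e^{iξx} dx = 1`, `∫ k₁(x) e^{iξx} dx = -iξ` for `|ξ| ≤ 2`. Hence (see `bern` there)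
`G(t) = L ∫ k₀(L(t-v)) G(v) dv`, `G'(t) = L² ∫ k₁(L(t-v)) G(v) dv` for every exponential sum with frequencies `≤ 2L`.
With `A(t) = ∫ L om p (L(t-v)) ‖G(v)‖ dv`: `‖G‖ ≤ C A`, `‖G^{(j+1)}‖ ≤ C L A_j`, `A_j` formed with `‖G^{(j)}‖`; convolution lemma
`om p * om p ≤ C om p` (either `|y| ≥ |x|/2` or `|x-y| ≥ |x|/2`), by Tonelli (use lintegral) and induction `‖G^{(j)}(t)‖ ≤ (B L)^j B A(t)`.
Taylor: `G(t + iy) = ∑_j (iy)^j/j! G^{(j)}(t)` (exponential series, termwise in `i`), so `‖G(t+iy)‖ ≤ B e^{B L |y|} A(t)`; `G'` is an exponential sum with the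
same frequencies. Cauchy-Schwarz: `A(t)² ≤ C ∫ L om p (L(t-v)) ‖G(v)‖² dv`. -/
def S_CB : Prop := ∀ p : ℕ, 2 ≤ p → ∃ B : ℝ, 1 ≤ B ∧ ∀ (ι : Type) (S : Finset ι) (a : ι → ℂ) (fr : ι → ℝ) (L : ℝ), 0 < L →
  (∀ i ∈ S, |fr i| ≤ 2 * L) → ∀ t y : ℝ,
    ‖ex S a fr (t + y * I)‖ ^ 2 ≤
      B * Real.exp (B * (L * |y|)) * ∫ v : ℝ, L * (1 / (1 + |L * (t - v)|) ^ p) * ‖ex S a fr v‖ ^ 2 ∧
    ‖ex' S a fr (t + y * I)‖ ^ 2 ≤
      B * L ^ 2 * Real.exp (B * (L * |y|)) * ∫ v : ℝ, L * (1 / (1 + |L * (t - v)|) ^ p) * ‖ex S a fr v‖ ^ 2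

def J_CB : Prop := S_CB

/-- D1: first part, Dirichlet polynomials at the zeros themselves. Job `J_D1`. PROOF. Let `p = 2m + 2 + r` (`r` large, for the far range), `B` from
S_CB, `θ' = min (θ) (δ/(4B))` (also `≤ 1/4`). For a zero `s = 1/2 + a + iγ = 1/2 + i z`, `z = γ - i a`, `dq M c s = ex (Icc 1 M) (c n n^{-1/2}) log z`, frequencies
`log n ≤ θ' L`; S_CB with `θ' L` in place of `L` (`1/(1+θ'x)^p ≤ θ'^{-p}/(1+x)^p`): `‖dq M c s‖² ≤ C e^{δ L |a|/2} ∫ L (1+L|γ-v|)^{-p} ‖dp M c v‖² dv`. For every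
`v`: `SS(γ) ≤ (1 + L|γ-v|)² SS(v)`, so `∑_s m_s e^{2δL|a|} SS(γ)^m (1+L|γ-v|)^{-(2m+2)} ≤ SS(v)^{m+1}` (all zeros of `Zf T (2T)` are in `ZD T`).
Main range `v ∈ [T/4, 8T]`: SSB with `m + 1`. Far range: `(1+L|γ-v|)^{-r+2} ≤ T^{-(r-2)}·2^r`, `‖dp M c v‖² ≤ M N2` and crude bounds `SS ≤ C T^{4}` for all `v` (number of zeros in `ZD T`
with multiplicity at most `C T²`, `e^{2δL|a|} ≤ T^{δ} ≤ T`). -/
def S_D1 : Prop := S_CB → S_DPM → S_MVL → ∀ (θ δ : ℝ) (m : ℕ) (C : ℝ), 0 < θ → θ ≤ 1 / 4 → 0 < δ → δ ≤ 1 → 0 ≤ C → SSB θ δ (m + 1) C →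
  ∃ θ' C' : ℝ, 0 < θ' ∧ θ' ≤ θ ∧ 0 ≤ C' ∧ ∀ᶠ T : ℝ in atTop, ∀ (M : ℕ) (c : ℕ → ℂ), (M : ℝ) ≤ T ^ θ' →
    ∑ s ∈ H370.Zf riemannZeta T (2 * T), (mz s : ℝ) * (SS δ T s.im ^ m * Real.exp (δ * (Real.log T * |s.re - 1 / 2|)) * ‖dq M c s‖ ^ 2) ≤
      C' * Real.log T * (T * N2 M c)

open Classical in
/-- D2: second part. Job `J_D2`. PROOF: that of `Pool.Agent.Q210.UM8.t_BLS` (files Q210/UM8/BLS.lean, BlsInt.lean, BlsKer.lean) at complex points: with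
`z = γ - i a` as in D1, `K = ⌊T²⌋₊`, `zt' K ps (1/2+iz) dq M c (1/2+iz) = ex S co fr z` (same `S, co, fr` as there), its derivative is
`ex' S co fr z = i (zt')'(s) dq M c s + zt'(s) (d/dz) dq M c`; `|ζ - zt'| ≤ C/T³` on the disc of radius `1/8` around `s` (`|a| ≤ 1/8`); S_CB with `p = 20`. The
sum over the zeros with the weights `1/n2` as there (`weights`, `sum_int`). -/
def S_D2 : Prop := S_CB → S_BLZ → ∃ A C : ℝ, 0 ≤ A ∧ 0 ≤ C ∧ ∀ᶠ T : ℝ in atTop, ∀ (M : ℕ) (c : ℕ → ℂ), (M : ℝ) ≤ T ^ (1 / 16 : ℝ) →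
  (∀ n, c n ≠ 0 → 1 ≤ n ∧ n ≤ M) →
  ∑ s ∈ (H370.Zf riemannZeta T (2 * T)).filter (fun s => |s.re - 1 / 2| ≤ 1 / 8), (n2 T s.im)⁻¹ *
      Real.exp (-(A * (Real.log T * |s.re - 1 / 2|))) * (‖deriv riemannZeta s‖ ^ 2 * ‖dq M c s‖ ^ 2) ≤
    C * Real.log T ^ 3 * ((∫ t in (T / 2)..(3 * T), ‖zt t‖ ^ 2 * ‖dp M c t‖ ^ 2) + N2 M c)

/-! ### the polynomials at complex points -/

/-- `zf` at complex points -/
def zfc (D : ℝ) (a a2 : ℕ → ℂ) (j : ℕ) (s : ℂ) : ℂ := dq (⌊XB D j⌋₊ ^ 2) (qb D a a2 j) s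

/-- `Ef` at complex points -/
def Efc (D κ : ℝ) (a a2 : ℕ → ℂ) (j₀ : ℕ) (s : ℂ) : ℂ := ∏ l ∈ Finset.Ico j₀ (JB D), TEx (R9 κ l) (zfc D a a2 l s)

/-- `pw` at complex points -/
def pwc (D κ : ℝ) (a a2 : ℕ → ℂ) : ℕ → ℂ → ℂ
  | 0 => fun _ => 1
  | (j + 1) => fun s => (20 * zfc D a a2 j s / (R9 κ j : ℂ)) ^ s7 j

/-- PTC: the pointwise inequality at complex points. Job `J_PTC`. PROOF: as `Pool.Agent.Q148.UM.D.pt2_one`, `pt2_two` (file Q148/UM/UBDa.lean), with `n E` in place of `n` and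
`(n E)^{lam/(1-lam)} ≤ n^{m'} E^{lam/(1-lam)}`. -/
def S_PTC : Prop := S_PT2 → ∀ (lam κ : ℝ) (m' : ℕ), 0 < lam → lam < 1 → 4 ≤ κ → lam / (1 - lam) ≤ m' →
  ∃ C : ℝ, 1 ≤ C ∧ ∀ (D : ℝ) (s : ℂ) (X n E : ℝ), 0 ≤ X → 1 ≤ n → 1 ≤ E → X ^ (2 * lam) ≤ C * ∑ q ∈ Finset.range (JB D + 1),
      (n ^ m' * E ^ (lam / (1 - lam)) * ‖Efc D κ (fun _ => (lam : ℂ)) (fun _ => (lam : ℂ)) q s * pwc D κ (fun _ => 1) (fun _ => 1) q s‖ ^ 2 +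
        n⁻¹ * E⁻¹ * X ^ 2 * ‖Efc D κ (fun _ => (lam : ℂ) - 1) (fun _ => (lam : ℂ) - 1) q s * pwc D κ (fun _ => 1) (fun _ => 1) q s‖ ^ 2)

/-- COFC: coefficients. Job `J_COFC`. PROOF. S_COF with `N = 1`, `b = d1` (`d1 1 = 1`, else `0`); both sides of the last identity are entire functions of `s` which agree for
`s = 1/2 + it` (`dq M c (1/2 + t * I) = dp M c t` by `rfl`), so they agree everywhere (identity theorem). -/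
def S_COFC : Prop := S_COF → ∀ (κ D : ℝ), 1 ≤ κ → 1 ≤ D → ∀ (a a2 a' a2' : ℕ → ℂ) (j₀ q : ℕ), ∃ (M : ℕ) (c : ℕ → ℂ), 1 ≤ M ∧
    Real.log M ≤ (26 * κ + 4) * D ∧ (∀ n, c n ≠ 0 → 1 ≤ n ∧ n ≤ M ∧ n ∈ Nat.smoothNumbers (⌊Real.exp D⌋₊ + 1)) ∧
    (∀ t : ℝ, dp M c t = Ef D κ a a2 j₀ t * pw D κ a' a2' q t) ∧
    ∀ s : ℂ, dq M c s = Efc D κ a a2 j₀ s * pwc D κ a' a2' q s

/-- FAR: the zeros far from the line. Job `J_FAR`. PROOF. `SSB θ δ 2 C`, so S_DSC with `m = 1`, `N = 1`, `b = d1` gives `∑_s m_s SS(γ_s) ≤ C' L T`, and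
`SS δ T γ_s ≥ e^{2δL|a_s|}`; so there are at most `C' L T^{1 - δ/4}` zeros in `Zf T (2T)` with `|a_s| > 1/8`. `‖ζ'(s)‖ ≤ T^K` for all zeros in the strip (`K` absolute, polynomial
growth of zeta in `-1 ≤ Re s ≤ 2` and Cauchy's estimate). `lam₁ = δ/(16 (K+1))`. -/
def S_FAR : Prop := S_DSC → ∀ θ δ C : ℝ, 0 < θ → θ ≤ 1 / 4 → 0 < δ → 0 ≤ C → SSB θ δ 2 C → ∃ K lam₁ : ℝ, 0 < K ∧ 0 < lam₁ ∧
  ∀ᶠ T : ℝ in atTop, (∀ s ∈ H370.Zf riemannZeta T (2 * T), ‖deriv riemannZeta s‖ ≤ T ^ K) ∧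
    ∀ lam : ℝ, 0 < lam → lam ≤ lam₁ →
      (open Classical in ∑ s ∈ (H370.Zf riemannZeta T (2 * T)).filter (fun s => 1 / 8 < |s.re - 1 / 2|), ‖deriv riemannZeta s‖ ^ (2 * lam)) ≤ T

end

end Pool.Agent.V7Lead.GH
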