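import Pool.Agent.V7Lead.GH.Core

set_option autoImplicit false

/-! Project GH (lead): from the core bound to dyadic blocks and to all zeros. -/

namespace Pool.Agent.V7Lead.GH

open Filter Topology MeasureTheory Complex
open Pool.Agent.Q97.UM

noncomputable section

/-- the conclusion of `t_core` -/
def Core : Prop := ∃ A : ℝ, 0 ≤ A ∧ ∀ m' : ℕ, ∃ δ : ℝ, 0 < δ ∧ ∀ lam : ℝ, 0 < lam → lam < 1 → lam / (1 - lam) ≤ m' →
      ∀ A₂ : ℝ, 0 ≤ A₂ → lam / (1 - lam) * A - A₂ ≤ δ → ∃ κ₀ : ℝ, 4 ≤ κ₀ ∧ ∀ κ : ℝ, κ₀ ≤ κ → ∃ δ₀ : ℝ, 0 < δ₀ ∧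
        ∀ d : ℝ, 0 < d → d ≤ δ₀ → ∃ C : ℝ, 0 ≤ C ∧ ∀ᶠ T : ℝ in atTop,
          ∑ s ∈ Zn T, ‖deriv riemannZeta s‖ ^ (2 * lam) * Real.exp (-(A₂ * (Real.log T * |s.re - 1 / 2|))) ≤
            C * T * Real.log T ^ (1 + 2 * lam) * N2 (M9 (d * Real.log T) κ)
              (ebk (d * Real.log T) κ (fun _ => (lam : ℂ)) (fun _ => (lam : ℂ)) 0 (JB (d * Real.log T)))

/-- the mean square of the polynomial (theorem `Q97.UM.N2_up`) -/
def NUp : Prop := ∀ lam : ℝ, 0 < lam → lam < 1 → ∃ κ₁ : ℝ, 4 ≤ κ₁ ∧ ∀ κ δ : ℝ, κ₁ ≤ κ → 0 < δ → δ ≤ 1 → ∃ C : ℝ, 0 ≤ C ∧ ∀ᶠ T : ℝ in atTop,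
    N2 (M9 (δ * Real.log T) κ) (ebk (δ * Real.log T) κ (fun _ => (lam : ℂ)) (fun _ => (lam : ℂ)) 0 (JB (δ * Real.log T))) ≤
      C * Real.log T ^ (lam ^ 2)

/-- near the line, with a weight -/
theorem near_of (hN : NUp) {lam A₂ : ℝ} (h0 : 0 < lam) (h1 : lam < 1)
    (h : ∃ κ₀ : ℝ, 4 ≤ κ₀ ∧ ∀ κ : ℝ, κ₀ ≤ κ → ∃ δ₀ : ℝ, 0 < δ₀ ∧
        ∀ d : ℝ, 0 < d → d ≤ δ₀ → ∃ C : ℝ, 0 ≤ C ∧ ∀ᶠ T : ℝ in atTop,
          ∑ s ∈ Zn T, ‖deriv riemannZeta s‖ ^ (2 * lam) * Real.exp (-(A₂ * (Real.log T * |s.re - 1 / 2|))) ≤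
            C * T * Real.log T ^ (1 + 2 * lam) * N2 (M9 (d * Real.log T) κ)
              (ebk (d * Real.log T) κ (fun _ => (lam : ℂ)) (fun _ => (lam : ℂ)) 0 (JB (d * Real.log T)))) :
    ∃ C : ℝ, 0 ≤ C ∧ ∀ᶠ T : ℝ in atTop,
      ∑ s ∈ Zn T, ‖deriv riemannZeta s‖ ^ (2 * lam) * Real.exp (-(A₂ * (Real.log T * |s.re - 1 / 2|))) ≤
        C * T * Real.log T ^ ((lam + 1) ^ 2) := by
  obtain ⟨κ₀, hκ₀, h⟩ := h
  obtain ⟨κ₁, hκ₁, h'⟩ := hN lam h0 h1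
  obtain ⟨δ₀, hδ₀, h2⟩ := h (max κ₀ κ₁) (le_max_left _ _)
  obtain ⟨C, hC, h3⟩ := h2 (min δ₀ 1) (by positivity) (min_le_left _ _)
  obtain ⟨C', hC', h4⟩ := h' (max κ₀ κ₁) (min δ₀ 1) (le_max_right _ _) (by positivity) (min_le_right _ _)
  refine ⟨C * C', by positivity, ?_⟩
  filter_upwards [h3, h4, eventually_ge_atTop 3] with T h5 h6 hT
  have hT0 : 0 < T := by linarith
  have hL0 : 0 < Real.log T := Real.log_pos (by linarith)
  refine h5.trans ?_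
  have e : Real.log T ^ ((lam + 1) ^ 2) = Real.log T ^ (1 + 2 * lam) * Real.log T ^ (lam ^ 2) := by
    rw [← Real.rpow_add hL0]
    congr 1
    ring
  rw [e]
  calc _ ≤ C * T * Real.log T ^ (1 + 2 * lam) * (C' * Real.log T ^ (lam ^ 2)) :=
        mul_le_mul_of_nonneg_left h6 (by positivity)
    _ = _ := by ring

open Classical in
/-- far from the line -/
def Zfar (T : ℝ) : Finset ℂ := (H370.Zf riemannZeta T (2 * T)).filter (fun s => 1 / 8 < |s.re - 1 / 2|)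

theorem sum_split (T : ℝ) (f : ℂ → ℝ) : ∑ s ∈ H370.Zf riemannZeta T (2 * T), f s = ∑ s ∈ Zn T, f s + ∑ s ∈ Zfar T, f s := by
  classical
  have h := Finset.sum_filter_add_sum_filter_not (H370.Zf riemannZeta T (2 * T)) (fun s : ℂ => |s.re - 1 / 2| ≤ 1 / 8) f
  have e1 : (H370.Zf riemannZeta T (2 * T)).filter (fun s : ℂ => |s.re - 1 / 2| ≤ 1 / 8) = Zn T := by
    ext s
    simp only [Zn, Finset.mem_filter]
  have e2 : (H370.Zf riemannZeta T (2 * T)).filter (fun s : ℂ => ¬ |s.re - 1 / 2| ≤ 1 / 8) = Zfar T := by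
    ext s
    simp only [Zfar, Finset.mem_filter, not_le]
  rw [e1, e2] at h
  exact h.symm

/-- dyadic blocks, small `λ` -/
theorem dy_small (hc : Core) (hN : NUp) (hFAR : ∃ lam₁ : ℝ, 0 < lam₁ ∧ ∀ᶠ T : ℝ in atTop,
      ∀ lam : ℝ, 0 < lam → lam ≤ lam₁ → ∑ s ∈ Zfar T, ‖deriv riemannZeta s‖ ^ (2 * lam) ≤ T) :
    ∃ lam₀ : ℝ, 0 < lam₀ ∧ ∀ lam : ℝ, 0 < lam → lam ≤ lam₀ → ∃ C : ℝ, 0 ≤ C ∧ ∀ᶠ T : ℝ in atTop,
      ∑ s ∈ H370.Zf riemannZeta T (2 * T), ‖deriv riemannZeta s‖ ^ (2 * lam) ≤ C * T * Real.log T ^ ((lam + 1) ^ 2) := by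
  obtain ⟨A, hA, hc⟩ := hc
  obtain ⟨δ, hδ, hc⟩ := hc 1
  obtain ⟨lam₁, hl1, hF⟩ := hFAR
  refine ⟨min (min (1 / 2) (δ / (2 * (A + 1)))) lam₁, by positivity, fun lam h0 h1 => ?_⟩
  have a1 : lam ≤ 1 / 2 := h1.trans ((min_le_left _ _).trans (min_le_left _ _))
  have a2 : lam ≤ δ / (2 * (A + 1)) := h1.trans ((min_le_left _ _).trans (min_le_right _ _))
  have a3 : lam ≤ lam₁ := h1.trans (min_le_right _ _)
  have b1 : 0 < 1 - lam := by linarith
  have b2 : lam / (1 - lam) ≤ 2 * lam := by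
    rw [div_le_iff₀ b1]
    nlinarith
  have b3 : lam / (1 - lam) ≤ ((1 : ℕ) : ℝ) := by
    push_cast
    linarith
  have b4 : lam / (1 - lam) * A - 0 ≤ δ := by
    rw [le_div_iff₀ (by positivity)] at a2
    have : lam / (1 - lam) * A ≤ 2 * lam * A := mul_le_mul_of_nonneg_right b2 hA
    nlinarith
  obtain ⟨C, hC, h⟩ := near_of hN h0 (by linarith) (hc lam h0 (by linarith) b3 0 le_rfl b4)
  refine ⟨C + 1, by positivity, ?_⟩
  filter_upwards [h, hF, eventually_ge_atTop (Real.exp 1)] with T h2 h3 hT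
  have hT0 : 0 < T := lt_of_lt_of_le (Real.exp_pos 1) hT
  have hL1 : 1 ≤ Real.log T := (Real.le_log_iff_exp_le hT0).mpr hT
  rw [sum_split]
  have h4 : ∑ s ∈ Zn T, ‖deriv riemannZeta s‖ ^ (2 * lam) ≤ C * T * Real.log T ^ ((lam + 1) ^ 2) := by
    refine (le_of_eq ?_).trans h2
    refine Finset.sum_congr rfl fun s _ => ?_
    rw [zero_mul, neg_zero, Real.exp_zero, mul_one]
  have h5 : T ≤ T * Real.log T ^ ((lam + 1) ^ 2) := by
    have := Real.one_le_rpow hL1 (show 0 ≤ (lam + 1) ^ 2 by positivity)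
    nlinarith
  have h6 := h3 lam h0 a3
  linarith

/-- dyadic blocks, all `0 < λ < 1`, with a weight -/
theorem dy_weight (hc : Core) (hN : NUp) (hK : ∃ K : ℝ, 0 < K ∧ ∀ᶠ T : ℝ in atTop,
      ∀ s ∈ H370.Zf riemannZeta T (2 * T), ‖deriv riemannZeta s‖ ≤ T ^ K)
    (hcard : ∃ C : ℝ, 0 ≤ C ∧ ∀ᶠ T : ℝ in atTop, ((H370.Zf riemannZeta T (2 * T)).card : ℝ) ≤ C * Real.log T * T) :
    ∀ lam : ℝ, 0 < lam → lam < 1 → ∃ A₂ : ℝ, 0 ≤ A₂ ∧ ∃ C : ℝ, 0 ≤ C ∧ ∀ᶠ T : ℝ in atTop,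
      ∑ s ∈ H370.Zf riemannZeta T (2 * T), ‖deriv riemannZeta s‖ ^ (2 * lam) *
        Real.exp (-(A₂ * (Real.log T * |s.re - 1 / 2|))) ≤ C * T * Real.log T ^ ((lam + 1) ^ 2) := by
  intro lam h0 h1
  obtain ⟨A, hA, hc⟩ := hc
  obtain ⟨m', hm'⟩ := exists_nat_ge (lam / (1 - lam))
  obtain ⟨δ, hδ, hc⟩ := hc m'
  obtain ⟨K, hK0, hK⟩ := hK
  obtain ⟨Cc, hCc, hcard⟩ := hcard
  have b1 : 0 < 1 - lam := by linarith
  obtain ⟨A₂, hA₂⟩ : ∃ A₂ : ℝ, A₂ = lam / (1 - lam) * A + 8 * (2 * K + 1) := ⟨_, rfl⟩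
  have hA₂0 : 0 ≤ A₂ := by rw [hA₂]; positivity
  have hA₂8 : 8 * (2 * K + 1) ≤ A₂ := by
    have : 0 ≤ lam / (1 - lam) * A := by positivity
    rw [hA₂]; linarith
  refine ⟨A₂, hA₂0, ?_⟩
  obtain ⟨C, hC, h⟩ := near_of hN h0 h1 (hc lam h0 h1 hm' A₂ hA₂0 (by rw [hA₂]; linarith))
  refine ⟨C + Cc, by positivity, ?_⟩
  filter_upwards [h, hK, hcard, eventually_ge_atTop (Real.exp 1)] with T h2 h3 h4 hT
  have hT0 : 0 < T := lt_of_lt_of_le (Real.exp_pos 1) hT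
  have hT1 : 1 ≤ T := le_trans (by have := Real.add_one_le_exp (1 : ℝ); linarith) hT
  have hL1 : 1 ≤ Real.log T := (Real.le_log_iff_exp_le hT0).mpr hT
  have hL0 : 0 < Real.log T := by linarith
  rw [sum_split]
  have h5 : ∀ s ∈ Zfar T, ‖deriv riemannZeta s‖ ^ (2 * lam) * Real.exp (-(A₂ * (Real.log T * |s.re - 1 / 2|))) ≤ T ^ (-1 : ℝ) := by
    intro s hs
    unfold Zfar at hs
    rw [Finset.mem_filter] at hs
    have e1 : ‖deriv riemannZeta s‖ ^ (2 * lam) ≤ T ^ (2 * K) := by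
      calc ‖deriv riemannZeta s‖ ^ (2 * lam) ≤ (T ^ K) ^ (2 * lam) :=
            Real.rpow_le_rpow (norm_nonneg _) (h3 s hs.1) (by linarith)
        _ = T ^ (K * (2 * lam)) := by rw [← Real.rpow_mul hT0.le]
        _ ≤ T ^ (2 * K) := Real.rpow_le_rpow_of_exponent_le hT1 (by nlinarith)
    have e2 : Real.exp (-(A₂ * (Real.log T * |s.re - 1 / 2|))) ≤ T ^ (-(2 * K + 1)) := by
      rw [Real.rpow_def_of_pos hT0]
      apply Real.exp_le_exp.2
      have e3 : 1 / 8 * Real.log T ≤ Real.log T * |s.re - 1 / 2| := by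
        rw [mul_comm (1 / 8 : ℝ)]
        exact mul_le_mul_of_nonneg_left hs.2.le hL0.le
      have e4 : 8 * (2 * K + 1) * (1 / 8 * Real.log T) ≤ A₂ * (Real.log T * |s.re - 1 / 2|) :=
        mul_le_mul hA₂8 e3 (by positivity) hA₂0
      nlinarith
    calc _ ≤ T ^ (2 * K) * T ^ (-(2 * K + 1)) := mul_le_mul e1 e2 (Real.exp_pos _).le (by positivity)
      _ = T ^ (-1 : ℝ) := by
        rw [← Real.rpow_add hT0]
        congr 1
        ring
  have h6 : ∑ s ∈ Zfar T, ‖deriv riemannZeta s‖ ^ (2 * lam) * Real.exp (-(A₂ * (Real.log T * |s.re - 1 / 2|))) ≤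
      Cc * Real.log T := by
    refine (Finset.sum_le_sum h5).trans ?_
    rw [Finset.sum_const, nsmul_eq_mul]
    have e1 : ((Zfar T).card : ℝ) ≤ Cc * Real.log T * T := by
      refine le_trans ?_ h4
      have : (Zfar T).card ≤ (H370.Zf riemannZeta T (2 * T)).card := Finset.card_le_card (Finset.filter_subset _ _)
      exact_mod_cast this
    calc ((Zfar T).card : ℝ) * T ^ (-1 : ℝ) ≤ (Cc * Real.log T * T) * T ^ (-1 : ℝ) :=
          mul_le_mul_of_nonneg_right e1 (by positivity)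
      _ = Cc * Real.log T := by
        rw [Real.rpow_neg_one]
        field_simp
  have h7 : Cc * Real.log T ≤ Cc * T * Real.log T ^ ((lam + 1) ^ 2) := by
    have e1 : Real.log T ≤ T := (Real.log_le_sub_one_of_pos hT0).trans (by linarith)
    have e2 := Real.one_le_rpow hL1 (show 0 ≤ (lam + 1) ^ 2 by positivity)
    calc Cc * Real.log T ≤ Cc * T := mul_le_mul_of_nonneg_left e1 hCc
      _ = Cc * T * 1 := (mul_one _).symm
      _ ≤ _ := mul_le_mul_of_nonneg_left e2 (by positivity)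
  calc _ ≤ C * T * Real.log T ^ ((lam + 1) ^ 2) + Cc * T * Real.log T ^ ((lam + 1) ^ 2) :=
        add_le_add h2 (h6.trans h7)
    _ = _ := by ring

/-- from dyadic blocks to `(0, T]` -/
theorem dyadic {f : ℝ → ℝ} {C e T₀ : ℝ} (hT₀ : 3 ≤ T₀) (he : 0 ≤ e) (hC : 0 ≤ C) (hf : Monotone f)
    (h : ∀ T : ℝ, T₀ ≤ T → f (2 * T) - f T ≤ C * T * Real.log T ^ e) :
    ∀ T : ℝ, T₀ ≤ T → f T ≤ f (2 * T₀) + C * T * Real.log T ^ e := by
  have key : ∀ n : ℕ, ∀ T : ℝ, T₀ ≤ T → T ≤ 2 ^ n * (2 * T₀) → f T ≤ f (2 * T₀) + C * T * Real.log T ^ e := by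
    intro n
    induction n with
    | zero =>
      intro T h1 h2
      rw [pow_zero, one_mul] at h2
      have h3 := hf h2
      have hL : 0 ≤ Real.log T := Real.log_nonneg (by linarith)
      have : 0 ≤ C * T * Real.log T ^ e := by
        have hT : 0 ≤ T := by linarith
        positivity
      linarith
    | succ n ih =>
      intro T h1 h2
      by_cases h3 : T ≤ 2 * T₀
      · have h4 := hf h3
        have hL : 0 ≤ Real.log T := Real.log_nonneg (by linarith)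
        have : 0 ≤ C * T * Real.log T ^ e := by
          have hT : 0 ≤ T := by linarith
          positivity
        linarith
      · push Not at h3
        have h4 : T₀ ≤ T / 2 := by linarith
        have h5 : T / 2 ≤ 2 ^ n * (2 * T₀) := by
          rw [pow_succ] at h2
          linarith
        have h6 := ih (T / 2) h4 h5
        have h7 := h (T / 2) h4
        rw [show 2 * (T / 2) = T by ring] at h7
        have hL : 0 ≤ Real.log (T / 2) := Real.log_nonneg (by linarith)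
        have h8 : Real.log (T / 2) ^ e ≤ Real.log T ^ e :=
          Real.rpow_le_rpow hL (Real.log_le_log (by linarith) (by linarith)) he
        have h9 : C * (T / 2) * Real.log (T / 2) ^ e ≤ C * (T / 2) * Real.log T ^ e :=
          mul_le_mul_of_nonneg_left h8 (by have hT : 0 ≤ T := by linarith
                                           positivity)
        linarith
  intro T hT
  obtain ⟨n, hn⟩ := pow_unbounded_of_one_lt (T / (2 * T₀)) (by norm_num : (1 : ℝ) < 2)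
  refine key n T hT ?_
  rw [div_lt_iff₀ (by linarith)] at hn
  exact hn.le

end

end Pool.Agent.V7Lead.GH
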