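import Pool.Agent.V7Lead.GH.Fin0
import Pool.Agent.Q178.UM.ZF2

set_option autoImplicit false

/-! Project GH (lead): the sums over the zeros with ordinates in `(0, T]`. -/

namespace Pool.Agent.V7Lead.GH

open Filter Topology MeasureTheory Complex
open Pool.Agent.Q97.UM

noncomputable section

/-- the nontrivial zeros of zeta with ordinate in `(0, T]` -/
def zeros (T : ℝ) : Set ℂ := {s : ℂ | riemannZeta s = 0 ∧ 0 < s.re ∧ s.re < 1 ∧ 0 < s.im ∧ s.im ≤ T}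

theorem zeros_finite (T : ℝ) : (zeros T).Finite := by
  refine (Pool.Agent.Q178.UM.ZF2.t_ZF2.1 (T / 2) (T / 2)).subset ?_
  rintro s ⟨h1, h2, h3, h4, h5⟩
  refine ⟨h1, h2, h3, ?_⟩
  rw [abs_le]
  constructor <;> linarith

theorem zeros_mono {S T : ℝ} (h : S ≤ T) : zeros S ⊆ zeros T := by
  rintro s ⟨h1, h2, h3, h4, h5⟩
  exact ⟨h1, h2, h3, h4, h5.trans h⟩

/-- the sum of `g` over these zeros -/
def Sm (g : ℂ → ℝ) (T : ℝ) : ℝ := ∑ᶠ s ∈ zeros T, g s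

theorem Sm_eq (g : ℂ → ℝ) (T : ℝ) : Sm g T = ∑ s ∈ (zeros_finite T).toFinset, g s :=
  finsum_mem_eq_finite_toFinset_sum _ (zeros_finite T)

theorem Sm_mono {g : ℂ → ℝ} (hg : ∀ s, 0 ≤ g s) : Monotone (Sm g) := by
  intro S T h
  rw [Sm_eq, Sm_eq]
  apply Finset.sum_le_sum_of_subset_of_nonneg
  · intro s hs
    rw [Set.Finite.mem_toFinset] at hs ⊢
    exact zeros_mono h hs
  · exact fun s _ _ => hg s

theorem Sm_nonneg {g : ℂ → ℝ} (hg : ∀ s, 0 ≤ g s) (T : ℝ) : 0 ≤ Sm g T := by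
  rw [Sm_eq]
  exact Finset.sum_nonneg fun s _ => hg s

theorem Sm_ge {g : ℂ → ℝ} (hg : ∀ s, 0 ≤ g s) {T : ℝ} (Z : Finset ℂ) (h : ∀ s ∈ Z, s ∈ zeros T) : ∑ s ∈ Z, g s ≤ Sm g T := by
  rw [Sm_eq]
  apply Finset.sum_le_sum_of_subset_of_nonneg
  · intro s hs
    rw [Set.Finite.mem_toFinset]
    exact h s hs
  · exact fun s _ _ => hg s

theorem Sm_step (g : ℂ → ℝ) {T : ℝ} (hT : 1 ≤ T) : Sm g (2 * T) - Sm g T = ∑ s ∈ H370.Zf riemannZeta T (2 * T), g s := by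
  classical
  rw [Sm_eq, Sm_eq]
  have h1 : (zeros_finite (2 * T)).toFinset = (zeros_finite T).toFinset ∪ H370.Zf riemannZeta T (2 * T) := by
    ext s
    rw [Finset.mem_union, Set.Finite.mem_toFinset, Set.Finite.mem_toFinset, H370.mem_Zf H370.good_zeta hT]
    constructor
    · rintro ⟨h1, h2, h3, h4, h5⟩
      by_cases h6 : s.im ≤ T
      · exact Or.inl ⟨h1, h2, h3, h4, h6⟩
      · push Not at h6
        exact Or.inr ⟨h2, h3, h6, h5, h1⟩
    · rintro (h | ⟨h1, h2, h3, h4, h5⟩)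
      · exact zeros_mono (by linarith) h
      · exact ⟨h5, h1, h2, by linarith, h4⟩
  have h2 : Disjoint (zeros_finite T).toFinset (H370.Zf riemannZeta T (2 * T)) := by
    rw [Finset.disjoint_left]
    intro s hs hs2
    rw [Set.Finite.mem_toFinset] at hs
    rw [H370.mem_Zf H370.good_zeta hT] at hs2
    have := hs.2.2.2.2
    have := hs2.2.2.1
    linarith
  rw [h1, Finset.sum_union h2]
  ring

/-- upper bounds -/
theorem Sm_up {g : ℂ → ℝ} (hg : ∀ s, 0 ≤ g s) {e : ℝ} (he : 0 ≤ e) (h : ∃ C : ℝ, 0 ≤ C ∧ ∀ᶠ T : ℝ in atTop,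
    ∑ s ∈ H370.Zf riemannZeta T (2 * T), g s ≤ C * T * Real.log T ^ e) :
    ∃ C T₀ : ℝ, ∀ T : ℝ, T₀ ≤ T → Sm g T ≤ C * T * Real.log T ^ e := by
  obtain ⟨C, hC, h⟩ := h
  obtain ⟨T₁, h⟩ := eventually_atTop.1 h
  obtain ⟨T₀, hT₀⟩ : ∃ T₀ : ℝ, T₀ = max T₁ 3 := ⟨_, rfl⟩
  have h1 : T₁ ≤ T₀ := by rw [hT₀]; exact le_max_left _ _
  have h3 : 3 ≤ T₀ := by rw [hT₀]; exact le_max_right _ _
  have hd := dyadic (f := Sm g) (C := C) (e := e) (T₀ := T₀) h3 he hC (Sm_mono hg) (fun T hT => by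
    rw [Sm_step g (by linarith)]
    exact h T (h1.trans hT))
  refine ⟨Sm g (2 * T₀) + C, T₀, fun T hT => (hd T hT).trans ?_⟩
  have hT3 : 3 ≤ T := h3.trans hT
  have hL : 1 ≤ Real.log T := by
    rw [Real.le_log_iff_exp_le (by linarith)]
    have := Real.exp_one_lt_d9
    linarith
  have h4 := Real.one_le_rpow hL he
  have h5 : 1 ≤ T * Real.log T ^ e := by nlinarith
  have h6 := mul_le_mul_of_nonneg_left h5 (Sm_nonneg hg (2 * T₀))
  nlinarith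

/-- lower bounds -/
theorem Sm_low {g : ℂ → ℝ} (hg : ∀ s, 0 ≤ g s) {e c : ℝ} (he : 0 ≤ e) (hc : 0 < c) (Z : ℝ → Finset ℂ)
    (hZ : ∀ T : ℝ, 16 ≤ T → ∀ s ∈ Z T, s ∈ H370.Zf riemannZeta T (2 * T))
    (h : ∀ᶠ T : ℝ in atTop, c * T * Real.log T ^ e ≤ ∑ s ∈ Z T, g s) :
    ∃ c' T₀ : ℝ, 0 < c' ∧ ∀ T : ℝ, T₀ ≤ T → c' * T * Real.log T ^ e ≤ Sm g T := by
  obtain ⟨T₁, h⟩ := eventually_atTop.1 h
  refine ⟨c / 2 * (1 / 2) ^ e, max (2 * T₁) 32, by positivity, fun T hT => ?_⟩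
  have h1 : 2 * T₁ ≤ T := (le_max_left _ _).trans hT
  have h2 : 32 ≤ T := (le_max_right _ _).trans hT
  have h3 := h (T / 2) (by linarith)
  have h4 : ∑ s ∈ Z (T / 2), g s ≤ Sm g T := by
    refine Sm_ge hg _ fun s hs => ?_
    have h5 := hZ (T / 2) (by linarith) s hs
    rw [H370.mem_Zf H370.good_zeta (by linarith)] at h5
    obtain ⟨a1, a2, a3, a4, a5⟩ := h5
    exact ⟨a5, a1, a2, by linarith, by linarith⟩
  refine le_trans ?_ (h3.trans h4)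
  have hL2 : 1 / 2 * Real.log T ≤ Real.log (T / 2) := by
    have e1 : Real.log (Real.sqrt T) = 1 / 2 * Real.log T := by
      rw [Real.log_sqrt (by linarith)]; ring
    rw [← e1]
    apply Real.log_le_log (Real.sqrt_pos.2 (by linarith))
    rw [Real.sqrt_le_left (by linarith)]
    nlinarith
  have hL0 : 0 ≤ Real.log T := Real.log_nonneg (by linarith)
  have h6 : (1 / 2 : ℝ) ^ e * Real.log T ^ e ≤ Real.log (T / 2) ^ e := by
    rw [← Real.mul_rpow (by norm_num) hL0]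
    exact Real.rpow_le_rpow (by positivity) hL2 he
  calc c / 2 * (1 / 2) ^ e * T * Real.log T ^ e = c * (T / 2) * ((1 / 2 : ℝ) ^ e * Real.log T ^ e) := by ring
    _ ≤ _ := mul_le_mul_of_nonneg_left h6 (by
      have : 0 ≤ T := by linarith
      positivity)

end

end Pool.Agent.V7Lead.GH
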